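import Pool.Agent.Lib.H69.Hopf.Main
import Pool.Agent.Lib.H88S.Final
import Pool.Agent.Lib.H88S.Second

/-!
# MP_5a30bb_gt: a curvature condition given by quadratic maps between spheres, all even dimensions

For an algebraic curvature tensor `R` on `ℝ^(2 n)` and symmetric matrices `A`, `B` put
`act R A B = ∑ R i j k l * A i k * B j l`.  `SphereNonpos R` says that
`act R S S ≤ ∑ k, act R (B k) (B k)` whenever `S` is positive semidefinite, the `B k` are symmetric
and `∑ k, B k (x, x) ^ 2 = S (x, x) ^ 2` for all `x` (so that `B` is a quadratic map between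
spheres, with respect to the inner product `S` if `S` is definite).

`result`: if `R + h • kn 1` satisfies `SphereNonpos`, or if the curvature operator of the second
kind of `R` is at most `-h`, where `h ≥ 0`, then `(-1) ^ n` times the Gauss–Bonnet–Chern integrand
of `R` is at least its value for constant curvature `-h`.

`gauss`: the same for the curvature tensors given by Gauss equations with second fundamental forms
`A a j` bounded by a positive semidefinite form `L a`.
-/

namespace Pool.Agent.H88S.Retired.SphereMaps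

open Pool.Agent.H69Hopf Pool.Agent.H88S

theorem result (n : ℕ) (R : Arr (2 * n)) (hR : IsAlgCurv R) (h : ℝ) (hh : 0 ≤ h)
    (hyp : SphereNonpos (R + h • kn (1 : Mat (2 * n))) ∨
      (∀ Y : Mat (2 * n), Y.IsSymm → Y.trace = 0 → h * ∑ i, ∑ j, Y i j ^ 2 ≤ act R Y Y)) :
    (2 * h) ^ n * (2 * n).factorial ≤ (-1) ^ n * gaussBonnet n R := by
  have hS : SphereNonpos (R + h • kn (1 : Mat (2 * n))) :=
    hyp.elim id fun hY => sphereNonpos_secondKind_h hR h hY
  rw [← gb_neg]
  have hA : IsAlgCurv (-R) := algCurv_neg hR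
  refine gb_lower (R := -R) hA hh ?_
  have he : -R - h • kn (1 : Mat (2 * n)) = -(R + h • kn (1 : Mat (2 * n))) := by
    rw [neg_add, sub_eq_add_neg]
  rw [he]
  intro p S B hSB
  simp only [act_neg, Finset.sum_neg_distrib]
  exact neg_le_neg (hS p S B hSB)

/-- Gauss equations: `R = -h • kn 1 + ∑ a, (∑ j, kn (A a j) - kn (L a))` with
`∑ j, A a j (x, x) ^ 2 ≤ L a (x, x) ^ 2`. -/
theorem gauss (n : ℕ) (R : Arr (2 * n)) (hR : IsAlgCurv R) (h : ℝ) (hh : 0 ≤ h)
    (p q : ℕ) (L : Fin p → Mat (2 * n)) (A : Fin p → Fin q → Mat (2 * n))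
    (hL : ∀ a, (L a).PosSemidef) (hA : ∀ a j, (A a j).IsSymm)
    (hLA : ∀ a x, ∑ j, bilin (A a j) x x ^ 2 ≤ bilin (L a) x x ^ 2)
    (he : R + h • kn (1 : Mat (2 * n)) = ∑ a, (∑ j, kn (A a j) - kn (L a))) :
    (2 * h) ^ n * (2 * n).factorial ≤ (-1) ^ n * gaussBonnet n R := by
  refine result n R hR h hh (Or.inl ?_)
  rw [he]
  have hb : ∀ a x, 0 ≤ bilin (L a) x x := fun a x => by
    have h1 := (hL a).dotProduct_mulVec_nonneg x
    have h2 : bilin (L a) x x = star x ⬝ᵥ (L a).mulVec x := by
      unfold bilin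
      simp only [dotProduct, Matrix.mulVec, Finset.mul_sum, Pi.star_apply, star_trivial, mul_assoc]
    rw [h2]
    exact h1
  have hs : ∀ a, SphereNonpos (∑ j, kn (A a j) - kn (L a)) := fun a =>
    sphereNonpos_kn (by
      have h1 := (hL a).isHermitian
      rw [Matrix.IsHermitian, Matrix.conjTranspose_eq_transpose_of_trivial] at h1
      exact h1) (hb a) (hA a) (hLA a)
  have h0 : SphereNonpos (0 : Arr (2 * n)) := fun p S B _ => by simp [act]
  exact Finset.sum_induction _ SphereNonpos (fun a b => sphereNonpos_add) h0 fun a _ => hs a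

end Pool.Agent.H88S.Retired.SphereMaps
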